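import Pool.Agent.H92.MProd
import Pool.Agent.H92.MProdRep

/-!
# Minimal (m, n)-products of power set algebras need not be m-representable

Whenever `n⁺ < m`, the minimal `(m, n)`-product of more than `n` copies of the power set algebra
of a set `M` with `n⁺ < |M| ≤ m` is not `m`-representable, although the factors are `m`-fields of
sets.  This answers the question in the negative.
-/

set_option autoImplicit false

universe u

open Cardinal Pool.Agent.H92.MProd

namespace Pool.Agent.Results.MP_705fed_lc.PowerSets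

/-- Power set algebras are `m`-algebras. -/
theorem isMAlgebra_set (m : Cardinal.{u}) (M : Type u) : IsMAlgebra m (Set M) := by
  intro I _ f
  exact ⟨⟨_, isLUB_sSup _⟩, ⟨_, isGLB_sInf _⟩⟩

/-- Power set algebras are `m`-representable (by themselves). -/
theorem isMRepresentable_set (m : Cardinal.{u}) (M : Type u) : IsMRepresentable m (Set M) := by
  refine ⟨M, Set.univ, {∅}, ⟨by simp, by simp⟩, ⟨by simp, ?_, ?_⟩, fun a => a.1, ?_, ?_⟩
  · rintro a ha b _ hb
    rw [Set.mem_singleton_iff] at ha ⊢
    subst ha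
    exact Set.subset_empty_iff.1 hb
  · intro I _ f hf
    rw [Set.mem_singleton_iff]
    simpa using hf
  · intro a
    exact ⟨⟨a, Set.mem_univ a⟩, rfl⟩
  · intro a b
    rw [Set.mem_singleton_iff, Set.sdiff_eq_empty]

/-- **Answer to the question.** Let `n` be infinite, `n⁺ < |M| ≤ m` and `n < |T|`.  The power set
algebra `Set M` is an `m`-representable Boolean `m`-algebra, the family of `|T|` copies of it has a
minimal `(m, n)`-product, and no minimal `(m, n)`-product of this family is `m`-representable.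
Such `T` and `M` exist whenever `n⁺ < m`. -/
theorem result (m n : Cardinal.{u}) (hn : ℵ₀ ≤ n) (T M : Type u) (hT : n < #T)
    (hM : Order.succ n < #M) (hMm : #M ≤ m) :
    (IsMAlgebra m (Set M) ∧ Nontrivial (Set M) ∧ IsMRepresentable m (Set M)) ∧
    (∃ (B : Type u) (_ : BooleanAlgebra B) (i : T → Set M → B),
      IsMinimalProduct m n (fun _ : T => Set M) B i) ∧
    (∀ (B : Type u) (_ : BooleanAlgebra B) (i : T → Set M → B),
      IsMinimalProduct m n (fun _ : T => Set M) B i → ¬ IsMRepresentable m B) := by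
  classical
  have hnM : n < #M := (Order.lt_succ n).trans hM
  have hnm : n ≤ m := hnM.le.trans hMm
  have hm : ℵ₀ ≤ m := hn.trans hnm
  have hMne : Nonempty M := by
    rw [← Cardinal.mk_ne_zero_iff]
    exact (aleph0_pos.trans_le (hn.trans hnM.le)).ne'
  have hnt : Nontrivial (Set M) := inferInstance
  refine ⟨⟨isMAlgebra_set m M, hnt, isMRepresentable_set m M⟩,
    exists_isMinimalProduct m n hn hnm (fun _ => hnt), ?_⟩
  intro B _ i hB hrep
  obtain ⟨X, F, D, hF, hD, q, hq, hle⟩ := hrep
  have hBnt : Nontrivial B := hB.toIsProduct.nontrivial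
  -- a subset of `T` of size `n⁺`
  obtain ⟨T₀, hT₀⟩ := Cardinal.le_mk_iff_exists_set.1 (Order.succ_le_of_lt hT)
  have hT₀m : #T₀ ≤ m := by
    rw [hT₀]; exact hM.le.trans hMm
  -- representatives
  choose E hE using hq
  let e : T → M → F := fun t ξ => E (i t {ξ})
  have he : ∀ t ξ, q (e t ξ) = i t {ξ} := fun t ξ => hE _
  -- the classes of the unions over `T₀` are `⊤`
  have key : ∀ ξ : M, ∀ b : B, (∀ t ∈ T₀, i t {ξ} ≤ b) → ⊤ ≤ b := by
    intro ξ b hb
    by_contra hcon
    have hb' : bᶜ ≠ ⊥ := by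
      intro h0
      exact hcon (by rw [compl_eq_bot] at h0; rw [h0])
    obtain ⟨T', hT', a, c, hc, hc0, hcb⟩ := hB.exists_meet_le bᶜ hb'
    -- a coordinate outside of `T'`
    obtain ⟨t₀, ht₀, ht₀'⟩ : ∃ t₀ ∈ T₀, t₀ ∉ T' := by
      by_contra hcon2
      push Not at hcon2
      have h1 : #T₀ ≤ #T' := Cardinal.mk_le_mk_of_subset hcon2
      rw [hT₀] at h1
      exact absurd (h1.trans hT') (not_le.2 (Order.lt_succ n))
    let a' : T → Set M := Function.update a t₀ {ξ}
    have ha't₀ : a' t₀ = {ξ} := by simp [a']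
    have ha't : ∀ t, t ≠ t₀ → a' t = a t := fun t ht => by simp [a', ht]
    have hglb : IsGLB ((fun t => i t (a' t)) '' (insert t₀ T')) (c ⊓ i t₀ {ξ}) := by
      constructor
      · rintro _ ⟨t, ht, rfl⟩
        by_cases htt : t = t₀
        · subst htt
          simp only [ha't₀]
          exact inf_le_right
        · simp only [ha't t htt]
          refine inf_le_left.trans (hc.1 ⟨t, ?_, rfl⟩)
          exact ht.resolve_left htt
      · intro d hd
        refine le_inf ?_ ?_
        · apply hc.2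
          rintro _ ⟨t, ht, rfl⟩
          have htt : t ≠ t₀ := fun h => ht₀' (h ▸ ht)
          have := hd ⟨t, Set.mem_insert_of_mem _ ht, rfl⟩
          simpa only [ha't t htt] using this
        · have := hd ⟨t₀, Set.mem_insert _ _, rfl⟩
          simpa only [ha't₀] using this
    have hne := hB.meet_ne_bot (insert t₀ T') (by
      refine (Cardinal.mk_insert_le).trans (Cardinal.add_le_of_le hn hT' (one_le_aleph0.trans hn)))
      a' (by
        intro t ht
        by_cases htt : t = t₀
        · subst htt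
          rw [ha't₀]
          exact hB.toIsProduct.ne_bot (Set.singleton_ne_empty ξ)
        · rw [ha't t htt]
          intro h0
          apply hc0
          rw [← le_bot_iff, ← h0]
          exact hc.1 ⟨t, ht.resolve_left htt, rfl⟩) _ hglb
    apply hne
    rw [← le_bot_iff]
    calc c ⊓ i t₀ {ξ} ≤ bᶜ ⊓ b := inf_le_inf hcb (hb t₀ ht₀)
      _ = ⊥ := compl_inf_self b
  -- the bad sets
  have hU : ∀ ξ : M, ((⋃ t : T₀, (e t.1 ξ : Set X)))ᶜ ∈ D := by
    intro ξ
    have hUF : (⋃ t : T₀, (e t.1 ξ : Set X)) ∈ F :=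
      hF.iUnion_mem T₀ hT₀m _ (fun t => (e t.1 ξ).2)
    have h1 : ⊤ ≤ q ⟨_, hUF⟩ := by
      apply key ξ
      intro t ht
      rw [← he]
      apply q_mono hD hle
      exact Set.subset_iUnion (fun t : T₀ => (e t.1 ξ : Set X)) ⟨t, ht⟩
    exact compl_mem_of_top_le hF hle h1
  have hW : ∀ (t : T) (ξ η : M), ξ ≠ η → (e t ξ : Set X) ∩ (e t η : Set X) ∈ D := by
    intro t ξ η hne
    apply inter_mem_of_inf hF hD hle hm
    rw [he, he, ← (hB.isMHom t).map_inf hm]
    have h1 : ({ξ} : Set M) ⊓ {η} = ⊥ := by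
      ext x
      simp only [Set.inf_eq_inter, Set.mem_inter_iff, Set.mem_singleton_iff, Set.bot_eq_empty,
        Set.mem_empty_iff_false, iff_false, not_and]
      rintro rfl h2
      exact hne h2
    rw [h1, (hB.isMHom t).map_bot]
  -- a point avoiding all the bad sets
  let g : M ⊕ (T₀ × M × M) → Set X := fun z => match z with
    | Sum.inl ξ => ((⋃ t : T₀, (e t.1 ξ : Set X)))ᶜ
    | Sum.inr (t, ξ, η) => if ξ ≠ η then (e t.1 ξ : Set X) ∩ (e t.1 η : Set X) else ∅
  have hcard : #(M ⊕ (T₀ × M × M)) ≤ m := by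
    rw [Cardinal.mk_sum, Cardinal.mk_prod, Cardinal.mk_prod]
    simp only [Cardinal.lift_id]
    exact Cardinal.add_le_of_le hm hMm (Cardinal.mul_le_of_le hm hT₀m
      (Cardinal.mul_le_of_le hm hMm hMm))
  obtain ⟨x, hx⟩ := exists_point hF hD (fun b => ⟨E b, hE b⟩) hle hm (M ⊕ (T₀ × M × M)) hcard g (by
    rintro (ξ | ⟨t, ξ, η⟩)
    · exact hU ξ
    · by_cases h : ξ ≠ η
      · simp only [g, if_pos h]; exact hW t.1 ξ η h
      · simp only [g, if_neg h]; exact hD.empty_mem)
  have h1 : ∀ ξ : M, ∃ t : T₀, x ∈ (e t.1 ξ : Set X) := by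
    intro ξ
    have := hx (Sum.inl ξ)
    simpa [g] using this
  choose f hf using h1
  have hinj : Function.Injective f := by
    intro ξ η hfe
    by_contra hne
    have := hx (Sum.inr (f ξ, ξ, η))
    simp only [g] at this
    rw [if_pos hne] at this
    apply this
    refine ⟨hf ξ, ?_⟩
    rw [hfe]
    exact hf η
  have h2 : #M ≤ #T₀ := Cardinal.mk_le_of_injective hinj
  rw [hT₀] at h2
  exact absurd hM (not_lt.2 h2)

end Pool.Agent.Results.MP_705fed_lc.PowerSets
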