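import Pool.Agent.H92.MProd
import Pool.Agent.H92.MProdRep
import Pool.Agent.H92.MProdQuot

/-!
# Two m-representable algebras whose minimal (m, n)-product is not m-representable

Let `m` be a singular cardinal with `2 ^ cf m ≤ m` (for instance any singular strong limit
cardinal) and let `n` be any infinite cardinal with `n ≤ m` (the case `n = m` included).  There is
an `m`-representable Boolean `m`-algebra `A` such that the minimal `(m, n)`-product of two (or
more) copies of `A` is not `m`-representable.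
-/

set_option autoImplicit false

universe u

open Cardinal Pool.Agent.H92.MProd

namespace Pool.Agent.Results.MP_705fed_lc.TwoFactors

section Scale

variable {m : Cardinal.{u}} (I : Set m.ord.ToType)

/-- An infinite cardinal below `m` bounding the number of predecessors of `i`. -/
noncomputable def nu (i : I) : Cardinal.{u} := max ℵ₀ #(Set.Iic i.1)

/-- The well-ordered factor at `i`: the successor cardinal of `nu i`. -/
abbrev W (i : I) : Type u := (Order.succ (nu I i)).ord.ToType

/-- The product of the factors. -/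
abbrev X : Type u := ∀ i : I, W I i

/-- `x` eventually strictly dominates `g`. -/
def Dom (g x : X I) : Prop := ∃ k : m.ord.ToType, ∀ i : I, k ≤ i.1 → g i < x i

/-- The ideal of non-dominating sets. -/
def D : Set (Set (X I)) := {Z | ∃ g, ∀ x ∈ Z, ¬ Dom I g x}

theorem bounded (i : I) {J : Type u} (hJ : #J ≤ nu I i) (f : J → W I i) :
    ∃ w, ∀ j, f j < w := by
  by_contra hcon
  push Not at hcon
  have hcof : IsCofinal (Set.range f) := by
    intro w
    obtain ⟨j, hj⟩ := hcon w
    exact ⟨f j, ⟨j, rfl⟩, hj⟩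
  have h1 := Order.cof_le hcof
  have h2 : Order.cof (W I i) = Order.succ (nu I i) := by
    show Order.cof (Order.succ (nu I i)).ord.ToType = Order.succ (nu I i)
    rw [Ordinal.cof_toType]
    exact (isRegular_succ (le_max_left _ _)).cof_ord
  rw [h2] at h1
  have h3 : Order.succ (nu I i) ≤ nu I i := (h1.trans Cardinal.mk_range_le).trans hJ
  exact absurd h3 (not_le.2 (Order.lt_succ _))

theorem D_iUnion (J : Type u) (hJ : #J ≤ m) (f : J → Set (X I)) (hf : ∀ j, f j ∈ D I) :
    (⋃ j, f j) ∈ D I := by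
  choose g hg using hf
  have he : Nonempty (J ↪ m.ord.ToType) := by
    rw [← Cardinal.le_def]
    simpa using hJ
  obtain ⟨e⟩ := he
  have hb : ∀ i : I, ∃ w : W I i, ∀ j : {j : J // e j ≤ i.1}, g j.1 i < w := by
    intro i
    apply bounded I i
    refine le_trans ?_ (le_max_right _ _)
    exact Cardinal.mk_le_of_injective (f := fun j : {j : J // e j ≤ i.1} =>
      (⟨e j.1, j.2⟩ : Set.Iic i.1)) (by
        intro j₁ j₂ h
        apply Subtype.ext
        apply e.injective
        exact congrArg Subtype.val h)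
  choose w hw using hb
  refine ⟨w, ?_⟩
  intro x hx hdom
  obtain ⟨j, hj⟩ := Set.mem_iUnion.1 hx
  obtain ⟨k, hk⟩ := hdom
  apply hg j x hj
  refine ⟨max k (e j), ?_⟩
  intro i hi
  exact (hw i ⟨j, (le_max_right _ _).trans hi⟩).trans (hk i ((le_max_left _ _).trans hi))

theorem isId (hm : ℵ₀ ≤ m) : IsId (D I) := by
  refine ⟨?_, ?_, ?_⟩
  · have := D_iUnion I PEmpty.{u+1} (by simp) (fun i => i.elim) (fun i => i.elim)
    simpa using this
  · rintro a ⟨g, hg⟩ b hb
    exact ⟨g, fun x hx => hg x (hb hx)⟩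
  · intro a ha b hb
    obtain ⟨g, hg⟩ := D_iUnion I (ULift.{u} Bool) ((Cardinal.lt_aleph0_of_finite _).le.trans hm)
      (fun i => if i.down then a else b) (by rintro ⟨i⟩; cases i <;> simpa)
    refine ⟨g, ?_⟩
    rintro x (hx | hx)
    · exact hg x (Set.mem_iUnion.2 ⟨⟨true⟩, by simpa using hx⟩)
    · exact hg x (Set.mem_iUnion.2 ⟨⟨false⟩, by simpa using hx⟩)

/-- Every element is dominated. -/
theorem exists_dom (g : X I) : ∃ x : X I, ∀ i : I, g i < x i := by
  have h : ∀ i : I, ∃ w : W I i, g i < w := by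
    intro i
    obtain ⟨w, hw⟩ := bounded I i (J := PUnit.{u+1})
      ((Cardinal.mk_punit).le.trans (one_le_aleph0.trans (le_max_left _ _))) (fun _ => g i)
    exact ⟨w, hw PUnit.unit⟩
  choose x hx using h
  exact ⟨x, hx⟩

theorem univ_notMem (hm : ℵ₀ ≤ m) : (Set.univ : Set (X I)) ∉ D I := by
  rintro ⟨g, hg⟩
  obtain ⟨x, hx⟩ := exists_dom I g
  have hne : Nonempty (m.ord.ToType) := by
    rw [← Cardinal.mk_ne_zero_iff, Cardinal.mk_ord_toType]
    exact (aleph0_pos.trans_le hm).ne'
  obtain ⟨k⟩ := hne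
  exact hg x (Set.mem_univ x) ⟨k, fun i _ => hx i⟩

/-- The cylinder of all `x` with `x i = ξ`. -/
def cyl (i : I) (ξ : W I i) : Set (X I) := {x | x i = ξ}

theorem mk_W_le (hm : m.IsSingular) (i : I) : #(W I i) ≤ m := by
  rw [Cardinal.mk_ord_toType]
  apply Order.succ_le_of_lt
  apply max_lt
  · exact lt_of_le_of_ne hm.aleph0_le (by
      rintro rfl
      exact not_isSingular_aleph0 hm)
  · have h1 := Cardinal.mk_Iic_lt (α := m.ord.ToType) i.1 (by simp) (by simpa using hm.aleph0_le)
    simpa using h1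

/-- Removing the small cylinders from a positive set. -/
theorem trim (hm : m.IsSingular) (hI : #I ≤ m) (Z : Set (X I)) (hZ : Z ∉ D I) :
    ∃ Z' ⊆ Z, Z' ∉ D I ∧ ∀ x ∈ Z', ∀ i : I, Z ∩ cyl I i (x i) ∉ D I := by
  classical
  have hid := isId I hm.aleph0_le
  let f : (Σ i : I, W I i) → Set (X I) := fun z =>
    if Z ∩ cyl I z.1 z.2 ∈ D I then Z ∩ cyl I z.1 z.2 else ∅
  have hf : ∀ z, f z ∈ D I := by
    intro z
    by_cases h : Z ∩ cyl I z.1 z.2 ∈ D I
    · simp only [f, if_pos h]; exact h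
    · simp only [f, if_neg h]; exact hid.empty
  have hcard : #(Σ i : I, W I i) ≤ m := by
    rw [Cardinal.mk_sigma]
    refine (Cardinal.sum_le_sum _ (fun _ => m) (fun i => mk_W_le I hm i)).trans ?_
    rw [Cardinal.sum_const']
    exact Cardinal.mul_le_of_le hm.aleph0_le hI le_rfl
  have hU := D_iUnion I _ hcard f hf
  refine ⟨Z \ ⋃ z, f z, Set.sdiff_subset, ?_, ?_⟩
  · intro h
    apply hZ
    refine hid.mono _ (hid.union _ h _ hU) _ ?_
    intro x hx
    by_cases hx' : x ∈ ⋃ z, f z
    · exact Or.inr hx'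
    · exact Or.inl ⟨hx, hx'⟩
  · rintro x ⟨hxZ, hxU⟩ i hcon
    apply hxU
    rw [Set.mem_iUnion]
    refine ⟨⟨i, x i⟩, ?_⟩
    simp only [f]
    rw [if_pos hcon]
    exact ⟨hxZ, rfl⟩

end Scale

open Ordinal Order in
/-- There are arbitrarily large singular `m` with `2 ^ cf m ≤ m`. -/
theorem exists_singular (l : Cardinal.{u}) :
    ∃ m : Cardinal.{u}, l ≤ m ∧ m.IsSingular ∧ 2 ^ m.ord.cof ≤ m := by
  let c : Cardinal.{u} := max l (2 ^ (ℵ₀ : Cardinal.{u}))
  let o : Ordinal.{u} := c.ord + ω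
  have ho : IsSuccLimit o := by
    exact Ordinal.isSuccLimit_add _ isSuccLimit_omega0
  have hcof : o.cof = ℵ₀ := by
    rw [Ordinal.cof_add _ omega0_ne_zero, cof_omega0]
  have hle : c ≤ ℵ_ o := (le_aleph_ord c).trans (aleph_le_aleph.2 (le_self_add))
  have hlt : ℵ₀ < ℵ_ o := by
    refine lt_of_lt_of_le (cantor ℵ₀) ((le_max_right _ _).trans hle)
  refine ⟨ℵ_ o, (le_max_left _ _).trans hle, isSingular_aleph_iff.2 ⟨ho, hcof ▸ hlt⟩, ?_⟩
  rw [Cardinal.ord_aleph, cof_omega ho, hcof]
  exact (le_max_right _ _).trans hle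

/-- The main construction, see `result`. -/
theorem main (m n : Cardinal.{u}) (hm : m.IsSingular) (hcf : 2 ^ m.ord.cof ≤ m)
    (hn : ℵ₀ ≤ n) (hnm : n ≤ m) :
    ∃ (A : Type u) (_ : BooleanAlgebra A),
      (IsMAlgebra m A ∧ Nontrivial A ∧ IsMRepresentable m A) ∧
      ∀ T : Type u, Nontrivial T →
        (∃ (B : Type u) (_ : BooleanAlgebra B) (i : T → A → B),
          IsMinimalProduct m n (fun _ : T => A) B i) ∧
        (∀ (B : Type u) (_ : BooleanAlgebra B) (i : T → A → B),
          IsMinimalProduct m n (fun _ : T => A) B i → ¬ IsMRepresentable m B) := by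
  classical
  have hm0 : ℵ₀ ≤ m := hm.aleph0_le
  -- a cofinal set of size `cf m`
  obtain ⟨I, hIcof, hIcard⟩ := Order.exists_cof_eq m.ord.ToType
  rw [Ordinal.cof_toType] at hIcard
  have hIm : #I ≤ m := hIcard.le.trans hm.cof_ord_lt.le
  have hid := isId I hm0
  have hDU := fun (J : Type u) (hJ : #J ≤ m) f hf => D_iUnion I J hJ f hf
  have hAnt : Nontrivial (PQuot hid) := by
    refine ⟨⊤, ⊥, ?_⟩
    intro h
    have : PQuot.mk hid Set.univ = ⊥ := h
    rw [PQuot.mk_eq_bot] at this
    exact univ_notMem I hm0 this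
  refine ⟨PQuot hid, inferInstance, ⟨PQuot.isMAlgebra hid hDU, hAnt,
    PQuot.isMRepresentable hid hDU⟩, ?_⟩
  intro T hT
  refine ⟨exists_isMinimalProduct m n hn hnm (fun _ => hAnt), ?_⟩
  intro B _ i hB hrep
  obtain ⟨Y, F, Dr, hF, hDr, q, hq, hle⟩ := hrep
  have hBnt : Nontrivial B := hB.toIsProduct.nontrivial
  obtain ⟨t₀, t₁, ht⟩ := hT
  -- refining a rectangle in the two coordinates
  have hrefine : ∀ b : B, b ≠ ⊥ → ∃ a₀ a₁ : PQuot hid, a₀ ≠ ⊥ ∧ a₁ ≠ ⊥ ∧
      ∀ a₀' a₁' : PQuot hid, a₀' ≠ ⊥ → a₁' ≠ ⊥ → a₀' ≤ a₀ → a₁' ≤ a₁ →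
        ∃ d : B, d ≠ ⊥ ∧ d ≤ b ∧ d ≤ i t₀ a₀' ∧ d ≤ i t₁ a₁' := by
    intro b hb
    obtain ⟨T', hT', a, c, hc, hc0, hcb⟩ := hB.exists_meet_le b hb
    have hane : ∀ t ∈ T', i t (a t) ≠ ⊥ := by
      intro t ht h0
      apply hc0
      rw [← le_bot_iff, ← h0]
      exact hc.1 ⟨t, ht, rfl⟩
    let s : T → PQuot hid := fun t => if t ∈ T' then a t else ⊤
    have hs : ∀ t, s t ≠ ⊥ := by
      intro t
      by_cases h : t ∈ T'
      · simp only [s, if_pos h]
        intro h0
        apply hane t h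
        rw [h0, (hB.isMHom t).map_bot]
      · simp only [s, if_neg h]
        exact top_ne_bot
    refine ⟨s t₀, s t₁, hs t₀, hs t₁, ?_⟩
    intro a₀' a₁' h0 h1 hl0 hl1
    let a' : T → PQuot hid := Function.update (Function.update s t₀ a₀') t₁ a₁'
    have ha'0 : a' t₀ = a₀' := by
      simp only [a']
      rw [Function.update_of_ne ht, Function.update_self]
    have ha'1 : a' t₁ = a₁' := by
      simp only [a']
      rw [Function.update_self]
    have ha' : ∀ t, a' t ≤ s t := by
      intro t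
      by_cases h1 : t = t₁
      · subst h1; rw [ha'1]; exact hl1
      · by_cases h0 : t = t₀
        · subst h0; rw [ha'0]; exact hl0
        · simp only [a']
          rw [Function.update_of_ne h1, Function.update_of_ne h0]
    have ha'ne : ∀ t, a' t ≠ ⊥ := by
      intro t
      by_cases h1' : t = t₁
      · subst h1'; rw [ha'1]; exact h1
      · by_cases h0' : t = t₀
        · subst h0'; rw [ha'0]; exact h0
        · simp only [a']
          rw [Function.update_of_ne h1', Function.update_of_ne h0']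
          exact hs t
    have hT'' : #(insert t₀ (insert t₁ T') : Set T) ≤ n := by
      refine (Cardinal.mk_insert_le).trans (Cardinal.add_le_of_le hn ?_ (one_le_aleph0.trans hn))
      exact (Cardinal.mk_insert_le).trans (Cardinal.add_le_of_le hn hT' (one_le_aleph0.trans hn))
    obtain ⟨-, d, hd⟩ := hB.isMAlgebra (insert t₀ (insert t₁ T') : Set T) (hT''.trans hnm)
      (fun t => i t.1 (a' t.1))
    have hd' : IsGLB ((fun t => i t (a' t)) '' (insert t₀ (insert t₁ T'))) d := by
      rw [Set.image_eq_range]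
      exact hd
    have hdle : ∀ t ∈ (insert t₀ (insert t₁ T') : Set T), d ≤ i t (a' t) :=
      fun t ht => hd'.1 ⟨t, ht, rfl⟩
    refine ⟨d, hB.meet_ne_bot _ hT'' a' (fun t _ => hB.toIsProduct.ne_bot (ha'ne t)) d hd',
      ?_, ?_, ?_⟩
    · refine le_trans ?_ hcb
      apply hc.2
      rintro _ ⟨t, htT', rfl⟩
      have h2 : a' t ≤ a t := by
        have := ha' t
        simpa only [s, if_pos htT'] using this
      exact (hdle t (Set.mem_insert_of_mem _ (Set.mem_insert_of_mem _ htT'))).trans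
        ((hB.isMHom t).mono hm0 h2)
    · have := hdle t₀ (Set.mem_insert _ _)
      rwa [ha'0] at this
    · have := hdle t₁ (Set.mem_insert_of_mem _ (Set.mem_insert _ _))
      rwa [ha'1] at this
  -- the elements `e j` comparing the `j`-th coordinates of the two generic points
  have hcyl : ∀ (j : I) (ξ ξ' : W I j), ξ ≠ ξ' →
      PQuot.mk hid (cyl I j ξ) ⊓ PQuot.mk hid (cyl I j ξ') = ⊥ := by
    intro j ξ ξ' hne
    rw [PQuot.mk_inf, PQuot.mk_eq_bot]
    have : cyl I j ξ ∩ cyl I j ξ' = ∅ := by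
      ext x
      simp only [cyl, Set.mem_inter_iff, Set.mem_ofPred_eq, Set.mem_empty_iff_false, iff_false,
        not_and]
      rintro rfl h
      exact hne h
    rw [this]
    exact hid.empty
  have hLUB : ∀ j : I, ∃ e : B, IsLUB (Set.range fun z : {z : W I j × W I j // z.1 < z.2} =>
      i t₀ (PQuot.mk hid (cyl I j z.1.1)) ⊓ i t₁ (PQuot.mk hid (cyl I j z.1.2))) e := by
    intro j
    refine (hB.isMAlgebra _ ?_ _).1
    refine (Cardinal.mk_subtype_le _).trans ?_
    rw [Cardinal.mk_prod, Cardinal.lift_id]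
    exact Cardinal.mul_le_of_le hm0 (mk_W_le I hm j) (mk_W_le I hm j)
  choose e he using hLUB
  -- every pattern of the `e j` is zero
  have pattern : ∀ (r : Set I) (b : B), (∀ j ∈ r, b ≤ e j) → (∀ j ∉ r, b ≤ (e j)ᶜ) → b = ⊥ := by
    intro r b hr hr'
    by_contra hb
    obtain ⟨a₀, a₁, ha₀, ha₁, hbox⟩ := hrefine b hb
    obtain ⟨Z₀, rfl⟩ := PQuot.mk_surjective hid a₀
    obtain ⟨Z₁, rfl⟩ := PQuot.mk_surjective hid a₁
    rw [Ne, PQuot.mk_eq_bot] at ha₀ ha₁
    obtain ⟨Z₀', -, hZ₀', hZ₀⟩ := trim I hm hIm Z₀ ha₀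
    obtain ⟨Z₁', -, hZ₁', hZ₁⟩ := trim I hm hIm Z₁ ha₁
    have main : ∀ x ∈ Z₀', ∀ y ∈ Z₁', ∀ j : I, j ∈ r ↔ x j < y j := by
      intro x hx y hy j
      obtain ⟨d, hd0, hdb, hdx, hdy⟩ := hbox (PQuot.mk hid (Z₀ ∩ cyl I j (x j)))
        (PQuot.mk hid (Z₁ ∩ cyl I j (y j)))
        (by rw [Ne, PQuot.mk_eq_bot]; exact hZ₀ x hx j)
        (by rw [Ne, PQuot.mk_eq_bot]; exact hZ₁ y hy j)
        (by
          rw [PQuot.mk_le_mk, Set.sdiff_eq_empty.2 Set.inter_subset_left]; exact hid.empty)
        (by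
          rw [PQuot.mk_le_mk, Set.sdiff_eq_empty.2 Set.inter_subset_left]; exact hid.empty)
      have hdx' : d ≤ i t₀ (PQuot.mk hid (cyl I j (x j))) := by
        refine hdx.trans ((hB.isMHom t₀).mono hm0 ?_)
        rw [PQuot.mk_le_mk, Set.sdiff_eq_empty.2 Set.inter_subset_right]; exact hid.empty
      have hdy' : d ≤ i t₁ (PQuot.mk hid (cyl I j (y j))) := by
        refine hdy.trans ((hB.isMHom t₁).mono hm0 ?_)
        rw [PQuot.mk_le_mk, Set.sdiff_eq_empty.2 Set.inter_subset_right]; exact hid.empty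
      by_cases hlt : x j < y j
      · have hde : d ≤ e j := (le_inf hdx' hdy').trans ((he j).1 ⟨⟨(x j, y j), hlt⟩, rfl⟩)
        refine ⟨fun _ => hlt, fun _ => ?_⟩
        by_contra hjr
        apply hd0
        rw [← le_bot_iff, ← inf_compl_self (e j)]
        exact le_inf hde (hdb.trans (hr' j hjr))
      · have hde : e j ≤ dᶜ := by
          apply (he j).2
          rintro _ ⟨⟨⟨ξ, η⟩, hξη⟩, rfl⟩
          simp only
          rw [le_compl_iff_disjoint_right, disjoint_iff_inf_le]
          by_cases h1 : ξ = x j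
          · have h2 : η ≠ y j := by
              rintro rfl
              subst h1
              exact hlt hξη
            calc i t₀ (PQuot.mk hid (cyl I j ξ)) ⊓ i t₁ (PQuot.mk hid (cyl I j η)) ⊓ d
                ≤ i t₁ (PQuot.mk hid (cyl I j η)) ⊓ i t₁ (PQuot.mk hid (cyl I j (y j))) :=
                  inf_le_inf inf_le_right hdy'
              _ = ⊥ := by
                rw [← (hB.isMHom t₁).map_inf hm0, hcyl j η (y j) h2, (hB.isMHom t₁).map_bot]
          · calc i t₀ (PQuot.mk hid (cyl I j ξ)) ⊓ i t₁ (PQuot.mk hid (cyl I j η)) ⊓ d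
                ≤ i t₀ (PQuot.mk hid (cyl I j ξ)) ⊓ i t₀ (PQuot.mk hid (cyl I j (x j))) :=
                  inf_le_inf inf_le_left hdx'
              _ = ⊥ := by
                rw [← (hB.isMHom t₀).map_inf hm0, hcyl j ξ (x j) h1, (hB.isMHom t₀).map_bot]
        refine ⟨fun hjr => ?_, fun h => absurd h hlt⟩
        exfalso
        apply hd0
        rw [← le_bot_iff, ← inf_compl_self d]
        exact le_inf le_rfl ((hdb.trans (hr j hjr)).trans hde)
    -- the contradiction
    have hne₀ : ∃ x, x ∈ Z₀' := by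
      by_contra hcon
      push Not at hcon
      apply hZ₀'
      rw [Set.eq_empty_of_forall_notMem hcon]
      exact hid.empty
    have hne₁ : ∃ x, x ∈ Z₁' := by
      by_contra hcon
      push Not at hcon
      apply hZ₁'
      rw [Set.eq_empty_of_forall_notMem hcon]
      exact hid.empty
    obtain ⟨x₀, hx₀⟩ := hne₀
    obtain ⟨y₀, hy₀⟩ := hne₁
    have h1 : ∃ x ∈ Z₀', Dom I y₀ x := by
      by_contra hcon
      push Not at hcon
      exact hZ₀' ⟨y₀, hcon⟩
    have h2 : ∃ y ∈ Z₁', Dom I x₀ y := by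
      by_contra hcon
      push Not at hcon
      exact hZ₁' ⟨x₀, hcon⟩
    obtain ⟨x, hx, k, hk⟩ := h1
    obtain ⟨y, hy, k', hk'⟩ := h2
    obtain ⟨j, hjI, hj⟩ := hIcof (max k k')
    have h3 := (main x hx y₀ hy₀ ⟨j, hjI⟩).not.2
      (not_lt.2 (hk ⟨j, hjI⟩ ((le_max_left _ _).trans hj)).le)
    exact h3 ((main x₀ hx₀ y hy ⟨j, hjI⟩).2 (hk' ⟨j, hjI⟩ ((le_max_right _ _).trans hj)))
  -- conclusion
  choose E hE using hq
  let P : I → F := fun j => E (e j)
  let N : I → F := fun j => E (e j)ᶜ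
  have hP : ∀ j, q (P j) = e j := fun j => hE _
  have hN : ∀ j, q (N j) = (e j)ᶜ := fun j => hE _
  have hPN : ∀ j, (((P j : Set Y) ∪ (N j : Set Y)))ᶜ ∈ Dr := by
    intro j
    have hmem : (P j : Set Y) ∪ (N j : Set Y) ∈ F := by
      have h1 := hF.compl_mem _ (hF.inter_mem hm0 (hF.compl_mem _ (P j).2)
        (hF.compl_mem _ (N j).2))
      rwa [Set.compl_inter, compl_compl, compl_compl] at h1
    have h1 : ⊤ ≤ q ⟨_, hmem⟩ := by
      rw [← sup_compl_eq_top (x := e j), ← hN j, ← hP j]
      exact sup_le (q_mono hDr hle (show (P j : Set Y) ⊆ _ from Set.subset_union_left))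
        (q_mono hDr hle (show (N j : Set Y) ⊆ _ from Set.subset_union_right))
    exact compl_mem_of_top_le hF hle h1
  have hpat : ∀ r : Set I, (⋂ j, (if j ∈ r then (P j : Set Y) else (N j : Set Y))) ∈ Dr := by
    intro r
    have hmem : (⋂ j, (if j ∈ r then (P j : Set Y) else (N j : Set Y))) ∈ F := by
      refine hF.iInter_mem I hIm _ ?_
      intro j
      by_cases h : j ∈ r
      · rw [if_pos h]; exact (P j).2
      · rw [if_neg h]; exact (N j).2
    refine mem_of_le_bot (a := ⟨_, hmem⟩) hF hle ?_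
    rw [le_bot_iff]
    apply pattern r
    · intro j hj
      rw [← hP j]
      apply q_mono hDr hle
      intro y hy
      have := Set.mem_iInter.1 hy j
      rwa [if_pos hj] at this
    · intro j hj
      rw [← hN j]
      apply q_mono hDr hle
      intro y hy
      have := Set.mem_iInter.1 hy j
      rwa [if_neg hj] at this
  have hcard : #(I ⊕ Set I) ≤ m := by
    rw [Cardinal.mk_sum, Cardinal.lift_id, Cardinal.lift_id, Cardinal.mk_set, hIcard]
    exact Cardinal.add_le_of_le hm0 hm.cof_ord_lt.le hcf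
  obtain ⟨y, hy⟩ := exists_point hF hDr (fun b => ⟨E b, hE b⟩) hle hm0 (I ⊕ Set I) hcard
    (fun z => match z with
      | Sum.inl j => (((P j : Set Y) ∪ (N j : Set Y)))ᶜ
      | Sum.inr r => ⋂ j, (if j ∈ r then (P j : Set Y) else (N j : Set Y)))
    (by
      rintro (j | r)
      · exact hPN j
      · exact hpat r)
  apply hy (Sum.inr {j | y ∈ (P j : Set Y)})
  simp only [Set.mem_iInter]
  intro j
  by_cases h : y ∈ (P j : Set Y)
  · rw [if_pos (show j ∈ {j | y ∈ (P j : Set Y)} from h)]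
    exact h
  · rw [if_neg (show j ∉ {j | y ∈ (P j : Set Y)} from h)]
    have := hy (Sum.inl j)
    simp only [Set.mem_compl_iff, Set.mem_union, not_not] at this
    exact this.resolve_left h

/-- **Answer to the question, also for two factors and for `n = m`.**  Let `m` be a singular
cardinal with `2 ^ cf m ≤ m` (there are arbitrarily large such `m`) and let `n` be an infinite
cardinal with `n ≤ m`.  There is a nondegenerate `m`-representable Boolean `m`-algebra `A` such
that for every index set `T` with at least two elements the family of `|T|` copies of `A` has a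
minimal `(m, n)`-product, and no minimal `(m, n)`-product of this family is `m`-representable. -/
theorem result :
    (∀ l : Cardinal.{u}, ∃ m : Cardinal.{u}, l ≤ m ∧ m.IsSingular ∧ 2 ^ m.ord.cof ≤ m) ∧
    ∀ m n : Cardinal.{u}, m.IsSingular → 2 ^ m.ord.cof ≤ m → ℵ₀ ≤ n → n ≤ m →
      ∃ (A : Type u) (_ : BooleanAlgebra A),
        (IsMAlgebra m A ∧ Nontrivial A ∧ IsMRepresentable m A) ∧
        ∀ T : Type u, Nontrivial T →
          (∃ (B : Type u) (_ : BooleanAlgebra B) (i : T → A → B),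
            IsMinimalProduct m n (fun _ : T => A) B i) ∧
          (∀ (B : Type u) (_ : BooleanAlgebra B) (i : T → A → B),
            IsMinimalProduct m n (fun _ : T => A) B i → ¬ IsMRepresentable m B) :=
  ⟨exists_singular, fun m n hm hcf hn hnm => main m n hm hcf hn hnm⟩

end Pool.Agent.Results.MP_705fed_lc.TwoFactors
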